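import Pool.Agent.Run7.h479.XX.Order

/-!
# The order of `L^S(s, π_V ⊠ π_W)` at the centre by the power traces of the Satake parameters

In the notation of the problem let `t_w`, `t'_w` be the Satake parameters over the primes `w` of `E` (for
`[E : F] = 2` those of the base changes to `E`, as `R` is induced from `St ⊗ St`) of `π_V` and `π_W`, for `w`
outside the finite set `S` of primes of `E`, and `p_k(t_w)`, `p_k(t'_w)` the traces of the standard
representations at `t_w^k`, `t'_w^k`. For `γ > π/2` and `T > 0` put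

`S(T) = ∑_{w ∉ S} ∑_{k ≥ 1} p_k(t_w) p_k(t'_w) / (k N(w)^{k/2}) · exp(iγ k log N(w) / T) / Γ(1 + k log N(w) / T)`.

The series converges absolutely, although `s = 1/2` is outside the region of convergence. As in Q1 let
`L(s) = L^S(s, π_V ⊠ π_W)` be meromorphic, `m` its order at `1/2` (negative for a pole) and `c` the leading
coefficient. Without any hypothesis on zeros:

* `e^{-mΛ_γ} T^m exp(S(T)) → c`, and `Re S(T) / log T → -m`;
* `m > 0` iff `Re S(T) → -∞`; `m < 0` iff `Re S(T) → ∞`;
* `m = 0`, i.e. `L(1/2)` is finite and not zero, iff `S(T)` converges, iff `|Re S(T_k)| ≤ B` for one number `B`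
  and one sequence `T_k → ∞`.

So the condition on the central value in (i) of Q1 is the boundedness of the real parts of these sums over the
products of the power traces, along one sequence.

The law for Euler products with complex coefficients at an arbitrary real point is due to helper453 (library
`Pool.Agent.Run7.h453.CX`, used in `MP_46b841_nt.ChebotarevAtZero`).
-/

set_option autoImplicit false

open Filter Topology Set NumberField IsDedekindDomain Run7.h479.XX

namespace Pool.Agent.Results.MP_41920c_nt.OrderByTraces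

variable {E : Type} [Field E] [NumberField E] {M N : ℕ}

/-- **Theorem.** Let `b_w`, `c_w` be the eigenvalues of the Satake parameters, of absolute value `1`, `L` the
partial L-function, meromorphic at the points of `[1/2, 1]`, and `γ > π/2`, `S(T) = sum S b c γ T`. The series
`S(T)` converges absolutely for `T > 0`, and for the order `m` of `L` at `1/2`:

* `e^{-mΛ_γ} T^m exp(S(T))` tends to the leading coefficient of `L` at `1/2`, and `Re S(T) / log T → -m`;
* `m = 0` iff `S(T)` converges; iff `|Re S(T)|` is bounded along one sequence `T_k → ∞`;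
* `m > 0` iff `Re S(T) → -∞`; `m < 0` iff `Re S(T) → ∞`. -/
theorem result (S : Set (HeightOneSpectrum (𝓞 E))) (b : HeightOneSpectrum (𝓞 E) → Fin M → ℂ)
    (c : HeightOneSpectrum (𝓞 E) → Fin N → ℂ) (L : ℂ → ℂ) (h : Tensor.IsL S b c L)
    (γ : ℝ) (hγ : Real.pi / 2 < γ) :
    (∀ T : ℝ, 0 < T → Summable fun x => ‖Tensor.term S b c γ T x‖) ∧
    ∃ m : ℤ, meromorphicOrderAt L ((1 / 2 : ℝ) : ℂ) = m ∧
      Tendsto (fun T : ℝ => Complex.exp (-(m * Lam γ)) * (T : ℂ) ^ m *
        Complex.exp (Tensor.sum S b c γ T)) atTop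
          (𝓝 (meromorphicTrailingCoeffAt L ((1 / 2 : ℝ) : ℂ))) ∧
      Tendsto (fun T : ℝ => (Tensor.sum S b c γ T).re / Real.log T) atTop (𝓝 (-(m : ℝ))) ∧
      (m = 0 ↔ ∃ ρ : ℂ, Tendsto (fun T : ℝ => Tensor.sum S b c γ T) atTop (𝓝 ρ)) ∧
      (m = 0 ↔ ∃ (B : ℝ) (T : ℕ → ℝ), Tendsto T atTop atTop ∧
        ∀ k, |(Tensor.sum S b c γ (T k)).re| ≤ B) ∧
      (0 < m ↔ Tendsto (fun T : ℝ => (Tensor.sum S b c γ T).re) atTop atBot) ∧
      (m < 0 ↔ Tendsto (fun T : ℝ => (Tensor.sum S b c γ T).re) atTop atTop) := by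
  simp_rw [Tensor.sum_eq]
  exact ⟨fun T hT => (h.isL.summable γ hT).congr fun x => by rw [Tensor.term_eq], h.isL.order hγ⟩

end Pool.Agent.Results.MP_41920c_nt.OrderByTraces
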